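import Pool.Agent.V5helper67.CI.Stm2

open Finset

namespace Pool.Agent.V5helper54.CI

/-- the choice of the parameters, with the logarithm replaced by a large number `x` -/
theorem par2_core (m x k A : ℝ) (hx : 10 ^ 11 ≤ x) (hm : 1 ≤ m) (hk : 0 < k)
    (hk1 : x ^ 6 * m ^ 2 ≤ k ^ 3) (hk2 : 6 * k ≤ m) (hA : 0 < A) (hA5 : A ^ 5 * m ^ 2 = k ^ 3) :
    ∃ L ℓ n M B : ℕ, 10 ≤ n ∧ 22 ≤ ℓ ∧ 0 < L ∧ ((ℓ * n ^ 2 : ℕ) : ℝ) ≤ B ∧ 1 ≤ B ∧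
      1 ≤ M ∧ (M : ℝ) ≤ B ∧ ((L * (6 * B) : ℕ) : ℝ) ≤ m ∧ 5 * x + 2 ≤ ℓ ∧
      32 * (ℓ : ℝ) ^ 2 * m ^ 2 ≤ n * B * M ∧
      ((L * (M + ℓ * n ^ 2) : ℕ) : ℝ) ≤ k ∧
      1 / 10 ^ 5 * (m ^ 2 * A / x ^ 2) ≤ L * m ^ 2 / (42 * ℓ) := by
  have hx0 : 0 < x := lt_of_lt_of_le (by norm_num) hx
  have hx1 : 1 ≤ x := le_trans (by norm_num) hx
  have hm0 : 0 < m := by linarith
  -- A ≥ 140 x
  have hAx : x ^ 6 ≤ A ^ 5 := by
    have h1 : x ^ 6 * m ^ 2 ≤ A ^ 5 * m ^ 2 := by rw [hA5]; exact hk1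
    exact le_of_mul_le_mul_right h1 (by positivity)
  have hA1 : 140 * x ≤ A := by
    refine le_of_pow_le_pow_left₀ (n := 5) (by norm_num) hA.le ?_
    refine le_trans ?_ hAx
    calc (140 * x) ^ 5 = 140 ^ 5 * x ^ 5 := by ring
      _ ≤ x * x ^ 5 := by
        apply mul_le_mul_of_nonneg_right _ (by positivity)
        exact le_trans (by norm_num) hx
      _ = x ^ 6 := by ring
  have hA11 : 1 ≤ A := by linarith
  -- A ≤ k
  have hAk : A ≤ k := by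
    have h1 : A ^ 5 * m ^ 2 ≤ k * m ^ 2 := by
      rw [hA5]
      have h2 : k ^ 2 ≤ m ^ 2 := pow_le_pow_left₀ hk.le (by linarith) 2
      calc k ^ 3 = k * k ^ 2 := by ring
        _ ≤ k * m ^ 2 := mul_le_mul_of_nonneg_left h2 hk.le
    have h2 : A ^ 5 ≤ k := le_of_mul_le_mul_right h1 (by positivity)
    exact (le_self_pow₀ hA11 (by norm_num)).trans h2
  -- L
  obtain ⟨L, hL1, hL2, hLpos⟩ : ∃ L : ℕ, (L : ℝ) * (140 * x) ≤ A ∧ A ≤ L * (280 * x) ∧ 0 < L := by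
    have h1 : 1 ≤ A / (140 * x) := by
      rw [le_div_iff₀ (by positivity)]
      linarith
    refine ⟨⌊A / (140 * x)⌋₊, ?_, ?_, Nat.floor_pos.mpr h1⟩
    · have h2 : (⌊A / (140 * x)⌋₊ : ℝ) ≤ A / (140 * x) := Nat.floor_le (by positivity)
      rwa [le_div_iff₀ (by positivity)] at h2
    · have h2 := Nat.lt_floor_add_one (A / (140 * x))
      have h3 : (1 : ℝ) ≤ (⌊A / (140 * x)⌋₊ : ℝ) := by
        exact_mod_cast Nat.floor_pos.mpr h1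
      rw [div_lt_iff₀ (by positivity)] at h2
      have h4 : (140 * x) * 1 ≤ (140 * x) * (⌊A / (140 * x)⌋₊ : ℝ) :=
        mul_le_mul_of_nonneg_left h3 (by positivity)
      linarith
  have hLr : (1 : ℝ) ≤ L := by exact_mod_cast hLpos
  have hL0 : (0 : ℝ) < L := by linarith
  have hLk : 140 * (L : ℝ) ≤ k := by
    have h1 : (L : ℝ) * 140 * 1 ≤ L * 140 * x := mul_le_mul_of_nonneg_left hx1 (by positivity)
    linarith
  -- B
  obtain ⟨B, hB1, hB2⟩ : ∃ B : ℕ, (B : ℝ) * (6 * L) ≤ m ∧ m ≤ 12 * L * B := by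
    refine ⟨⌊m / (6 * L)⌋₊, ?_, ?_⟩
    · have h1 : (⌊m / (6 * L)⌋₊ : ℝ) ≤ m / (6 * L) := Nat.floor_le (by positivity)
      rwa [le_div_iff₀ (by positivity)] at h1
    · have h1 := Nat.lt_floor_add_one (m / (6 * L))
      rw [div_lt_iff₀ (by positivity)] at h1
      linarith
  have hBpos : (0 : ℝ) < B := by
    by_contra h
    have h0 : (B : ℝ) = 0 := le_antisymm (not_lt.mp h) (Nat.cast_nonneg _)
    rw [h0] at hB2
    linarith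
  have hB1' : 1 ≤ B := by
    have : 0 < B := by exact_mod_cast hBpos
    omega
  -- M
  obtain ⟨M, hM1, hM2⟩ : ∃ M : ℕ, (M : ℝ) * (2 * L) ≤ k ∧ k ≤ 4 * L * M := by
    refine ⟨⌊k / (2 * L)⌋₊, ?_, ?_⟩
    · have h1 : (⌊k / (2 * L)⌋₊ : ℝ) ≤ k / (2 * L) := Nat.floor_le (by positivity)
      rwa [le_div_iff₀ (by positivity)] at h1
    · have h1 := Nat.lt_floor_add_one (k / (2 * L))
      rw [div_lt_iff₀ (by positivity)] at h1
      linarith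
  have hMpos : (0 : ℝ) < M := by
    by_contra h
    have h0 : (M : ℝ) = 0 := le_antisymm (not_lt.mp h) (Nat.cast_nonneg _)
    rw [h0] at hM2
    linarith
  have hM1' : 1 ≤ M := by
    have : 0 < M := by exact_mod_cast hMpos
    omega
  -- ℓ
  obtain ⟨ℓ, hl1, hl2⟩ : ∃ ℓ : ℕ, 5 * x + 2 ≤ ℓ ∧ (ℓ : ℝ) ≤ 6 * x := by
    refine ⟨⌈5 * x + 2⌉₊, Nat.le_ceil _, ?_⟩
    have := Nat.ceil_lt_add_one (a := 5 * x + 2) (by positivity)
    have h3 : (3 : ℝ) ≤ x := le_trans (by norm_num) hx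
    linarith
  have hlr : (22 : ℝ) ≤ ℓ := by
    have h3 : (4 : ℝ) ≤ x := le_trans (by norm_num) hx
    linarith
  have hl0 : (0 : ℝ) < ℓ := by linarith
  -- n
  obtain ⟨n, hn1, hn2⟩ : ∃ n : ℕ, 32 * (ℓ : ℝ) ^ 2 * m ^ 2 ≤ n * (B * M) ∧
      (n : ℝ) * (B * M) ≤ 32 * (ℓ : ℝ) ^ 2 * m ^ 2 + B * M := by
    refine ⟨⌈32 * (ℓ : ℝ) ^ 2 * m ^ 2 / (B * M)⌉₊, ?_, ?_⟩
    · have h1 := Nat.le_ceil (32 * (ℓ : ℝ) ^ 2 * m ^ 2 / (B * M))
      rwa [div_le_iff₀ (by positivity)] at h1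
    · have h1 := (Nat.ceil_lt_add_one (a := 32 * (ℓ : ℝ) ^ 2 * m ^ 2 / (B * M))
        (by positivity)).le
      have h2 : (⌈32 * (ℓ : ℝ) ^ 2 * m ^ 2 / (B * M)⌉₊ : ℝ) * (B * M) ≤
          (32 * (ℓ : ℝ) ^ 2 * m ^ 2 / (B * M) + 1) * (B * M) :=
        mul_le_mul_of_nonneg_right h1 (by positivity)
      rw [add_mul, one_mul, div_mul_cancel₀ _ (by positivity)] at h2
      exact h2
  have hn0 : (0 : ℝ) < n := by
    by_contra h
    have h0 : (n : ℝ) = 0 := le_antisymm (not_lt.mp h) (Nat.cast_nonneg _)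
    rw [h0, zero_mul] at hn1
    have : (0 : ℝ) < 32 * (ℓ : ℝ) ^ 2 * m ^ 2 := by positivity
    linarith
  -- B M ≥ k m / (48 L²)
  have hBM : k * m ≤ 48 * (L : ℝ) ^ 2 * (B * M) := by
    have h1 : k * m ≤ (4 * L * M) * (12 * L * B) :=
      mul_le_mul hM2 hB2 hm0.le (by positivity)
    calc k * m ≤ (4 * L * M) * (12 * L * B) := h1
      _ = 48 * (L : ℝ) ^ 2 * (B * M) := by ring
  have hBM2 : (B : ℝ) * M * 72 ≤ m * m := by
    have h1 : (B : ℝ) * 6 ≤ m := by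
      have h3 : (B : ℝ) * 6 * 1 ≤ B * 6 * L := mul_le_mul_of_nonneg_left hLr (by positivity)
      linarith
    have h2 : (M : ℝ) * 2 ≤ k := by
      have h3 : (M : ℝ) * 2 * 1 ≤ M * 2 * L := mul_le_mul_of_nonneg_left hLr (by positivity)
      linarith
    have h3 : (M : ℝ) * 12 ≤ m := by linarith
    have h4 : (B : ℝ) * 6 * (M * 12) ≤ m * m := mul_le_mul h1 h3 (by positivity) (by positivity)
    linarith
  -- n k ≤ 60000 x² m L²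
  have hnk : (n : ℝ) * k ≤ 60000 * (x ^ 2 * m * (L : ℝ) ^ 2) := by
    have h1 : (n : ℝ) * (k * m) ≤ n * (48 * (L : ℝ) ^ 2 * (B * M)) :=
      mul_le_mul_of_nonneg_left hBM hn0.le
    have h2 : (n : ℝ) * (48 * (L : ℝ) ^ 2 * (B * M)) ≤
        48 * (L : ℝ) ^ 2 * (32 * (ℓ : ℝ) ^ 2 * m ^ 2 + B * M) := by
      have := mul_le_mul_of_nonneg_left hn2 (show (0 : ℝ) ≤ 48 * (L : ℝ) ^ 2 by positivity)
      linarith
    have h3 : (ℓ : ℝ) ^ 2 ≤ 36 * x ^ 2 := by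
      have := pow_le_pow_left₀ hl0.le hl2 2
      calc (ℓ : ℝ) ^ 2 ≤ (6 * x) ^ 2 := this
        _ = 36 * x ^ 2 := by ring
    have h4 : 48 * (L : ℝ) ^ 2 * (32 * (ℓ : ℝ) ^ 2 * m ^ 2) ≤
        48 * (L : ℝ) ^ 2 * (32 * (36 * x ^ 2) * m ^ 2) := by
      gcongr
    have h5 : 48 * (L : ℝ) ^ 2 * (B * M) ≤ (L : ℝ) ^ 2 * m ^ 2 := by
      have h6 := mul_le_mul_of_nonneg_left hBM2 (show (0 : ℝ) ≤ (L : ℝ) ^ 2 by positivity)
      have h7 : 0 ≤ (L : ℝ) ^ 2 * (B * M) := by positivity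
      calc 48 * (L : ℝ) ^ 2 * (B * M) = 48 * ((L : ℝ) ^ 2 * (B * M)) := by ring
        _ ≤ 72 * ((L : ℝ) ^ 2 * (B * M)) := by linarith
        _ = (L : ℝ) ^ 2 * (B * M * 72) := by ring
        _ ≤ (L : ℝ) ^ 2 * (m * m) := h6
        _ = (L : ℝ) ^ 2 * m ^ 2 := by ring
    have h7 : (L : ℝ) ^ 2 * m ^ 2 ≤ x ^ 2 * ((L : ℝ) ^ 2 * m ^ 2) :=
      le_mul_of_one_le_left (by positivity) (one_le_pow₀ hx1)
    have h8 : (n : ℝ) * k * m ≤ 60000 * (x ^ 2 * m * (L : ℝ) ^ 2) * m := by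
      calc (n : ℝ) * k * m = n * (k * m) := by ring
        _ ≤ 48 * (L : ℝ) ^ 2 * (32 * (ℓ : ℝ) ^ 2 * m ^ 2 + B * M) := h1.trans h2
        _ = 48 * (L : ℝ) ^ 2 * (32 * (ℓ : ℝ) ^ 2 * m ^ 2) + 48 * (L : ℝ) ^ 2 * (B * M) := by ring
        _ ≤ 48 * (L : ℝ) ^ 2 * (32 * (36 * x ^ 2) * m ^ 2) + (L : ℝ) ^ 2 * m ^ 2 :=
          add_le_add h4 h5
        _ ≤ 48 * (L : ℝ) ^ 2 * (32 * (36 * x ^ 2) * m ^ 2) + x ^ 2 * ((L : ℝ) ^ 2 * m ^ 2) := by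
          linarith
        _ = 55297 * (x ^ 2 * m * (L : ℝ) ^ 2) * m := by ring
        _ ≤ 60000 * (x ^ 2 * m * (L : ℝ) ^ 2) * m := by
          gcongr
          norm_num
    exact le_of_mul_le_mul_right h8 hm0
  -- L⁵
  have hL5 : 140 ^ 5 * ((L : ℝ) ^ 5 * x ^ 5) ≤ A ^ 5 := by
    have := pow_le_pow_left₀ (by positivity) hL1 5
    calc 140 ^ 5 * ((L : ℝ) ^ 5 * x ^ 5) = ((L : ℝ) * (140 * x)) ^ 5 := by ring
      _ ≤ A ^ 5 := this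
  -- ℓ n² (2 L) ≤ k
  have hln : (ℓ : ℝ) * (n : ℝ) ^ 2 * (2 * L) ≤ k := by
    have h1 : ((n : ℝ) * k) ^ 2 ≤ (60000 * (x ^ 2 * m * (L : ℝ) ^ 2)) ^ 2 :=
      pow_le_pow_left₀ (by positivity) hnk 2
    have h2 : (ℓ : ℝ) * ((n : ℝ) * k) ^ 2 ≤
        (6 * x) * (60000 * (x ^ 2 * m * (L : ℝ) ^ 2)) ^ 2 :=
      mul_le_mul hl2 h1 (by positivity) (by positivity)
    have h3 : (ℓ : ℝ) * (n : ℝ) ^ 2 * (2 * L) * k ^ 2 ≤ k * k ^ 2 := by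
      calc (ℓ : ℝ) * (n : ℝ) ^ 2 * (2 * L) * k ^ 2 = 2 * L * (ℓ * ((n : ℝ) * k) ^ 2) := by ring
        _ ≤ 2 * L * ((6 * x) * (60000 * (x ^ 2 * m * (L : ℝ) ^ 2)) ^ 2) :=
          mul_le_mul_of_nonneg_left h2 (by positivity)
        _ = (432 * 10 ^ 8 * ((L : ℝ) ^ 5 * x ^ 5)) * m ^ 2 := by ring
        _ ≤ A ^ 5 * m ^ 2 := by
          apply mul_le_mul_of_nonneg_right _ (by positivity)
          have h4 : (0 : ℝ) ≤ (L : ℝ) ^ 5 * x ^ 5 := by positivity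
          refine le_trans ?_ hL5
          exact mul_le_mul_of_nonneg_right (by norm_num) h4
        _ = k ^ 3 := hA5
        _ = k * k ^ 2 := by ring
    exact le_of_mul_le_mul_right h3 (by positivity)
  refine ⟨L, ℓ, n, M, B, ?_, ?_, hLpos, ?_, hB1', hM1', ?_, ?_, hl1, ?_, ?_, ?_⟩
  · -- 10 ≤ n
    have h1 : (10 : ℝ) ≤ n := by
      have h2 : (n : ℝ) * (B * M) * 72 ≤ n * (m * m) := by
        have := mul_le_mul_of_nonneg_left hBM2 hn0.le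
        linarith
      have h3 : 32 * (ℓ : ℝ) ^ 2 * m ^ 2 * 72 ≤ n * (m * m) := by linarith
      have h4 : (10 : ℝ) * (m * m) ≤ 32 * (ℓ : ℝ) ^ 2 * m ^ 2 * 72 := by
        have h5 : (1 : ℝ) ≤ (ℓ : ℝ) ^ 2 := one_le_pow₀ (by linarith)
        have h6 : (m * m) * 1 ≤ (m * m) * (ℓ : ℝ) ^ 2 :=
          mul_le_mul_of_nonneg_left h5 (by positivity)
        have h7 : 0 < m * m := by positivity
        calc (10 : ℝ) * (m * m) ≤ 2304 * ((m * m) * 1) := by linarith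
          _ ≤ 2304 * ((m * m) * (ℓ : ℝ) ^ 2) := by linarith
          _ = 32 * (ℓ : ℝ) ^ 2 * m ^ 2 * 72 := by ring
      exact le_of_mul_le_mul_right (h4.trans h3) (by positivity)
    exact_mod_cast h1
  · exact_mod_cast hlr
  · -- ℓ n² ≤ B
    push_cast
    have h5 : (ℓ : ℝ) * (n : ℝ) ^ 2 * (12 * L) ≤ B * (12 * L) := by linarith
    exact le_of_mul_le_mul_right h5 (by positivity)
  · -- M ≤ B
    have h1 : (M : ℝ) * (12 * L) ≤ B * (12 * L) := by linarith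
    exact le_of_mul_le_mul_right h1 (by positivity)
  · push_cast
    linarith
  · linarith
  · push_cast
    linarith
  · -- the last inequality
    have h4 : 1 / 10 ^ 5 * (m ^ 2 * A / x ^ 2) ≤ (A / (280 * x)) * m ^ 2 / (42 * (6 * x)) := by
      have h5 : (A / (280 * x)) * m ^ 2 / (42 * (6 * x)) = 1 / 70560 * (m ^ 2 * A / x ^ 2) := by
        field_simp
        norm_num
      rw [h5]
      apply mul_le_mul_of_nonneg_right _ (by positivity)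
      norm_num
    have h6 : A / (280 * x) ≤ L := by
      rw [div_le_iff₀ (by positivity)]
      exact hL2
    have h7 : (A / (280 * x)) * m ^ 2 / (42 * (6 * x)) ≤ L * m ^ 2 / (42 * ℓ) := by
      gcongr
    exact h4.trans h7

open Pool.Agent.V5helper67.CI in
theorem t_PAR2 : S_PAR2 := by
  have hlim : Filter.Tendsto (fun m : ℕ => Real.log (m : ℝ)) Filter.atTop Filter.atTop :=
    Real.tendsto_log_atTop.comp tendsto_natCast_atTop_atTop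
  obtain ⟨m0, h0⟩ := Filter.eventually_atTop.mp (hlim.eventually_ge_atTop ((10 : ℝ) ^ 11))
  refine ⟨m0 + 1, fun m hm k hk1 hk2 => ?_⟩
  have hx : (10 : ℝ) ^ 11 ≤ Real.log m := h0 m (by omega)
  have hm1 : (1 : ℝ) ≤ m := by
    have : 1 ≤ m := by omega
    exact_mod_cast this
  have hm0 : (0 : ℝ) < m := by linarith
  have hx0 : 0 < Real.log m := lt_of_lt_of_le (by norm_num) hx
  have hr : 0 < (m : ℝ) ^ (2 / 3 : ℝ) := Real.rpow_pos_of_pos hm0 _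
  have hk : (0 : ℝ) < k := lt_of_lt_of_le (by positivity) hk1
  have hr3 : ((m : ℝ) ^ (2 / 3 : ℝ)) ^ 3 = (m : ℝ) ^ 2 := by
    rw [← Real.rpow_natCast, ← Real.rpow_mul hm0.le, ← Real.rpow_natCast]
    norm_num
  have hkk1 : Real.log m ^ 6 * (m : ℝ) ^ 2 ≤ (k : ℝ) ^ 3 := by
    have h1 := pow_le_pow_left₀ (by positivity) hk1 3
    calc Real.log m ^ 6 * (m : ℝ) ^ 2 = Real.log m ^ 6 * ((m : ℝ) ^ (2 / 3 : ℝ)) ^ 3 := by
          rw [hr3]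
      _ = ((m : ℝ) ^ (2 / 3 : ℝ) * Real.log m ^ 2) ^ 3 := by ring
      _ ≤ (k : ℝ) ^ 3 := h1
  have hkk2 : 6 * (k : ℝ) ≤ m := by exact_mod_cast hk2
  have hy : 0 < (k : ℝ) ^ 3 / (m : ℝ) ^ 2 := by positivity
  have hA : 0 < ((k : ℝ) ^ 3 / (m : ℝ) ^ 2) ^ (1 / 5 : ℝ) := Real.rpow_pos_of_pos hy _
  have hA5 : (((k : ℝ) ^ 3 / (m : ℝ) ^ 2) ^ (1 / 5 : ℝ)) ^ 5 = (k : ℝ) ^ 3 / (m : ℝ) ^ 2 := by
    rw [← Real.rpow_natCast, ← Real.rpow_mul hy.le]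
    norm_num
  have hA5' : (((k : ℝ) ^ 3 / (m : ℝ) ^ 2) ^ (1 / 5 : ℝ)) ^ 5 * (m : ℝ) ^ 2 = (k : ℝ) ^ 3 := by
    rw [hA5]
    exact div_mul_cancel₀ _ (by positivity)
  obtain ⟨L, ℓ, n, M, B, h1, h2, h3, h4, h5, h6, h7, h8, h9, h10, h11, h12⟩ :=
    par2_core m (Real.log m) k _ hx hm1 hk hkk1 hkk2 hA hA5'
  refine ⟨L, ℓ, n, B, M, B, h1, h2, h3, by exact_mod_cast h4, h5, le_refl B, h6,
    by exact_mod_cast h7, by exact_mod_cast h8, h9, h10, by exact_mod_cast h11, h12⟩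

end Pool.Agent.V5helper54.CI
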